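import Pool.Agent.Y805.CF.Ex2

/-!
# Contact foliations without toral leaves: all `n ≥ 1` and all `q ≥ 2`

For every `n ≥ 1` and every `q ≥ 2` the closed connected manifold `S^n × T^(n+q)`, of dimension
`2 n + q`, carries a `q`-contact structure such that every isotropy group of the contact action is
cyclic, so that every leaf of the contact foliation is homeomorphic to `ℝ^q` or to
`ℝ^(q-1) × S^1`.  In particular no leaf is compact, and no leaf is homeomorphic to `T^q`.

The example: on `S^n × T^(n+1) × T^(q-1)`, with coordinates `(y, x, t)`, `y ∈ S^n ⊂ ℝ^(n+1)`, put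
`α = ⟨y, dx⟩ + ∑ k, ⟨y, u k⟩ dt_k`, and `λ_1 = α`, `λ_(k+1) = α + dt_k`, where the vectors `u k` are
given by powers of a transcendental number.
-/

set_option autoImplicit false

open scoped ContDiff
open Set Pool.Agent.Y805.CF

noncomputable section

namespace Pool.Agent.Results.MP_666db5_gt.AllDimensions

/-- The elements of the isotropy groups. -/
theorem mem_isotropy {n r : ℕ} {z : V n r} {s : Fin (r + 2) → ℝ}
    (hs : s ∈ (action n r).isotropy z) :
    ∃ (a : Fin (n + 2) → ℤ) (b : Fin (r + 1) → ℤ), (disp s z.1 : V n r) = ivec a b := by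
  obtain ⟨g, ⟨a, b, hg⟩, h⟩ := hs
  refine ⟨a, b, ?_⟩
  have h1 : z + disp s z.1 = z + ivec a b := by rw [← hg z]; exact h
  exact add_left_cancel h1

theorem coords {n r : ℕ} {z : V n r} {s : Fin (r + 2) → ℝ} {a : Fin (n + 2) → ℤ}
    {b : Fin (r + 1) → ℤ} (h : (disp s z.1 : V n r) = ivec a b) :
    (∀ k, s k.succ - s 0 = b k) ∧
      ∀ i, (a i : ℝ) + ∑ k, (b k : ℝ) * uc n r k i = s 0 * z.1 i := by
  have h2 : ∀ k, s k.succ - s 0 = b k := fun k => congrFun (congrArg (fun v => v.2.2) h) k
  refine ⟨h2, fun i => ?_⟩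
  have h3 : s 0 • z.1 - ∑ k : Fin (r + 1), (s k.succ - s 0) • u n r k =
      WithLp.toLp 2 (fun i => (a i : ℝ)) := congrArg (fun v => v.2.1) h
  have h4 := congrArg (fun v : H n => v i) h3
  simp only [h2] at h4
  have h5 : (∑ k : Fin (r + 1), ((b k : ℝ) • u n r k : H n)) i =
      ∑ k, (b k : ℝ) * uc n r k i := by
    simp [u]
  rw [PiLp.sub_apply, h5, PiLp.smul_apply, smul_eq_mul] at h4
  change s 0 * z.1 i - ∑ k, (b k : ℝ) * uc n r k i = a i at h4
  linarith

theorem eq_zero_of {n r : ℕ} {z : V n r} {s : Fin (r + 2) → ℝ}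
    (hs : s ∈ (action n r).isotropy z) (h0 : s 0 = 0) : s = 0 := by
  obtain ⟨a, b, h⟩ := mem_isotropy hs
  obtain ⟨h1, h2⟩ := coords h
  obtain ⟨h3, -⟩ := prop (n := n) (r := r) a 0 b 0 0 (fun i => by
    rw [h2 i, h0]; ring)
  funext i
  refine Fin.cases h0 (fun k => ?_) i
  have h4 := h1 k
  rw [h3 k, h0] at h4
  simp only [Pi.zero_apply]
  linarith

theorem cyclic_of_functional {q : ℕ} (G : AddSubgroup (Fin q → ℝ)) (l : (Fin q → ℝ) →+ ℝ)
    (hint : ∀ s ∈ G, ∃ m : ℤ, l s = m) (hinj : ∀ s ∈ G, l s = 0 → s = 0) : IsAddCyclic G := by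
  have hmem : ∀ s : G, (l.comp G.subtype) s ∈ AddSubgroup.zmultiples (1 : ℝ) := by
    intro s
    obtain ⟨m, hm⟩ := hint s.1 s.2
    rw [AddSubgroup.mem_zmultiples_iff]
    exact ⟨m, by simpa using hm.symm⟩
  refine isAddCyclic_of_injective
    ((l.comp G.subtype).codRestrict (AddSubgroup.zmultiples (1 : ℝ)) hmem) ?_
  rw [injective_iff_map_eq_zero]
  intro s hs
  have h1 : l s.1 = 0 := congrArg Subtype.val hs
  exact Subtype.ext (hinj s.1 s.2 h1)

/-- All isotropy groups are cyclic. -/
theorem cyclic {n r : ℕ} (z : V n r) (hz : sph n r z = 0) :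
    IsAddCyclic ((action n r).isotropy z) := by
  by_cases htriv : ∀ s ∈ (action n r).isotropy z, s = 0
  · refine cyclic_of_functional _ 0 (fun s _ => ⟨0, by simp⟩) (fun s hs _ => htriv s hs)
  · push Not at htriv
    obtain ⟨s', hs', hne⟩ := htriv
    have h0' : s' 0 ≠ 0 := fun h => hne (eq_zero_of hs' h)
    obtain ⟨a', b', h'⟩ := mem_isotropy hs'
    obtain ⟨h1', h2'⟩ := coords h'
    -- proportionality
    have key : ∀ s ∈ (action n r).isotropy z, ∀ (a : Fin (n + 2) → ℤ) (b : Fin (r + 1) → ℤ),
        (disp s z.1 : V n r) = ivec a b →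
        (∀ k, (b k : ℝ) = s 0 / s' 0 * b' k) ∧ ∀ i, (a i : ℝ) = s 0 / s' 0 * a' i := by
      intro s hs a b h
      obtain ⟨h1, h2⟩ := coords h
      refine prop a a' b b' _ fun i => ?_
      rw [h2 i, h2' i]
      field_simp
    have fin : ∀ s ∈ (action n r).isotropy z, s 0 / s' 0 = 0 → s = 0 := by
      intro s hs h
      refine eq_zero_of hs ?_
      rcases div_eq_zero_iff.1 h with h | h
      · exact h
      · exact absurd h h0'
    by_cases hb : ∃ k, b' k ≠ 0
    · obtain ⟨k, hk⟩ := hb
      have hkr : (b' k : ℝ) ≠ 0 := by exact_mod_cast hk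
      refine cyclic_of_functional _
        { toFun := fun s => (disp s z.1 : V n r).2.2 k
          map_zero' := by simp [disp]
          map_add' := fun s t => by rw [disp_add]; rfl } ?_ ?_
      · intro s hs
        obtain ⟨a, b, h⟩ := mem_isotropy hs
        exact ⟨b k, congrFun (congrArg (fun v => v.2.2) h) k⟩
      · intro s hs h0
        obtain ⟨a, b, h⟩ := mem_isotropy hs
        have hbk : (b k : ℝ) = 0 := by
          rw [← h0]
          exact (congrFun (congrArg (fun v => v.2.2) h) k).symm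
        have h3 := (key s hs a b h).1 k
        rw [hbk] at h3
        exact fin s hs ((mul_eq_zero.1 h3.symm).resolve_right hkr)
    · push Not at hb
      have ha : ∃ j, a' j ≠ 0 := by
        by_contra hcon
        push Not at hcon
        have h3 : ∀ i, s' 0 * z.1 i = 0 := by
          intro i
          rw [← h2' i, hcon i]
          simp [hb]
        have h4 : z.1 = 0 := by
          ext i
          have := (mul_eq_zero.1 (h3 i)).resolve_left h0'
          simpa using this
        have h5 := sph_eq hz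
        rw [h4, inner_zero_left] at h5
        norm_num at h5
      obtain ⟨j, hj⟩ := ha
      have hjr : (a' j : ℝ) ≠ 0 := by exact_mod_cast hj
      refine cyclic_of_functional _
        { toFun := fun s => (disp s z.1 : V n r).2.1 j
          map_zero' := by simp [disp]
          map_add' := fun s t => by rw [disp_add]; rfl } ?_ ?_
      · intro s hs
        obtain ⟨a, b, h⟩ := mem_isotropy hs
        exact ⟨a j, congrArg (fun v => v.2.1 j) h⟩
      · intro s hs h0
        obtain ⟨a, b, h⟩ := mem_isotropy hs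
        have haj : (a j : ℝ) = 0 := by
          rw [← h0]
          exact (congrArg (fun v => v.2.1 j) h).symm
        have h3 := (key s hs a b h).2 j
        rw [haj] at h3
        exact fin s hs ((mul_eq_zero.1 h3.symm).resolve_right hjr)

/-- If `q ≥ 2`, the quotient of `ℝ^q` by a cyclic subgroup is not compact. -/
theorem not_compact {r : ℕ} (G : AddSubgroup (Fin (r + 2) → ℝ)) (hG : IsAddCyclic G) :
    ¬ CompactSpace ((Fin (r + 2) → ℝ) ⧸ G) := by
  intro hc
  obtain ⟨⟨s1, hs1⟩, hgen⟩ := hG.exists_generator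
  have h01 : (0 : Fin (r + 2)) ≠ 1 := by
    intro h
    have := congrArg Fin.val h
    simp at this
  obtain ⟨A, B, hne, hAB⟩ : ∃ A B : ℝ, (A ≠ 0 ∨ B ≠ 0) ∧ A * s1 0 + B * s1 1 = 0 := by
    by_cases h : s1 0 = 0
    · exact ⟨1, 0, Or.inl one_ne_zero, by rw [h]; ring⟩
    · exact ⟨s1 1, - s1 0, Or.inr (neg_ne_zero.2 h), by ring⟩
  let l : (Fin (r + 2) → ℝ) →+ ℝ :=
    { toFun := fun s => A * s 0 + B * s 1
      map_zero' := by simp
      map_add' := by intro s t; simp only [Pi.add_apply]; ring }
  have hcont : Continuous l := by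
    change Continuous (fun s : Fin (r + 2) → ℝ => A * s 0 + B * s 1)
    fun_prop
  have hker : G ≤ l.ker := by
    intro s hs
    obtain ⟨m, hm⟩ := AddSubgroup.mem_zmultiples_iff.1 (hgen ⟨s, hs⟩)
    have hm' : s = m • s1 := by
      have := congrArg Subtype.val hm
      simpa using this.symm
    rw [AddMonoidHom.mem_ker, hm', map_zsmul]
    have : l s1 = 0 := hAB
    rw [this, smul_zero]
  let L := QuotientAddGroup.lift G l hker
  have hL : Continuous L := hcont.quotient_lift _
  have hsurj : Function.Surjective L := by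
    intro y
    have : ∃ s : Fin (r + 2) → ℝ, A * s 0 + B * s 1 = y := by
      rcases hne with hA | hB
      · refine ⟨Pi.single 0 (y / A), ?_⟩
        rw [Pi.single_eq_same, Pi.single_eq_of_ne h01.symm]
        field_simp
        ring
      · refine ⟨Pi.single 1 (y / B), ?_⟩
        rw [Pi.single_eq_same, Pi.single_eq_of_ne h01]
        field_simp
        ring
    obtain ⟨s, hs⟩ := this
    exact ⟨QuotientAddGroup.mk s, hs⟩
  have : CompactSpace ℝ := by
    rw [← isCompact_univ_iff, ← hsurj.range_eq]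
    exact isCompact_range hL
  exact (not_compactSpace_iff.2 (inferInstance : NoncompactSpace ℝ)) this

/-- The vector `a + ∑ k, b k • u k`. -/
def wvec (n r : ℕ) (a : Fin (n + 2) → ℤ) (b : Fin (r + 1) → ℤ) : H n :=
  WithLp.toLp 2 (fun i => (a i : ℝ) + ∑ k, (b k : ℝ) * uc n r k i)

/-- The countable set of the points of the sphere which are proportional to some `wvec n r a b`. -/
def cset (n r : ℕ) : Set (H n) :=
  Set.range (fun p : (Fin (n + 2) → ℤ) × (Fin (r + 1) → ℤ) => ‖wvec n r p.1 p.2‖⁻¹ • wvec n r p.1 p.2)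
    ∪ Set.range (fun p : (Fin (n + 2) → ℤ) × (Fin (r + 1) → ℤ) =>
      (-‖wvec n r p.1 p.2‖)⁻¹ • wvec n r p.1 p.2)

theorem countable_cset (n r : ℕ) : (cset n r).Countable :=
  (Set.countable_range _).union (Set.countable_range _)

theorem isotropy_eq_bot {n r : ℕ} (z : V n r) (hz : sph n r z = 0) (hC : z.1 ∉ cset n r) :
    (action n r).isotropy z = ⊥ := by
  rw [AddSubgroup.eq_bot_iff_forall]
  intro s hs
  by_contra hne
  apply hC
  have h0 : s 0 ≠ 0 := fun h => hne (eq_zero_of hs h)
  obtain ⟨a, b, h⟩ := mem_isotropy hs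
  obtain ⟨-, h2⟩ := coords h
  have hw : wvec n r a b = s 0 • z.1 := by
    ext i
    change (a i : ℝ) + ∑ k, (b k : ℝ) * uc n r k i = s 0 * z.1 i
    exact h2 i
  have hn : ‖wvec n r a b‖ = |s 0| := by
    rw [hw, norm_smul, norm_eq.1 hz, mul_one, Real.norm_eq_abs]
  rcases lt_or_gt_of_ne h0 with hlt | hgt
  · right
    refine ⟨(a, b), ?_⟩
    simp only
    rw [hn, hw, abs_of_neg hlt, neg_neg, smul_smul, inv_mul_cancel₀ h0, one_smul]
  · left
    refine ⟨(a, b), ?_⟩
    simp only
    rw [hn, hw, abs_of_pos hgt, smul_smul, inv_mul_cancel₀ h0, one_smul]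

/-- The closed manifold `M = {f = 0} / Γ`, with a map `p` from `E` to a space `E'`, carries a
`q`-contact structure (`dim M = 2 n + q`) with a contact action such that: every isotropy group is
cyclic (so that every leaf is homeomorphic to `ℝ^q` or to `ℝ^(q-1) × S^1`), no leaf is compact, no
leaf is homeomorphic to the torus `T^q`, and the isotropy groups are trivial at all points `x` with
`p x` outside some countable set. -/
def CarriesNoToralLeaf {E E' : Type} [NormedAddCommGroup E] [NormedSpace ℝ E] (f : E → ℝ)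
    (Γ : Subgroup (Equiv.Perm E)) (n q : ℕ) (p : E → E') : Prop :=
  ∃ (lam : Fin q → E → (E →L[ℝ] ℝ)) (R : E → Submodule ℝ E), IsQContact f Γ n q lam R ∧
    ∃ A : ContactAction f Γ lam R,
      (∀ x, f x = 0 → IsAddCyclic (A.isotropy x) ∧ ¬ CompactSpace (A.Leaf x) ∧
        IsEmpty (A.Leaf x ≃ₜ (Fin q → AddCircle (1 : ℝ)))) ∧
      ∃ C : Set E', C.Countable ∧ ∀ x, f x = 0 → p x ∉ C → A.isotropy x = ⊥

/-- **The generalised Weinstein conjecture for contact foliations fails for all `n ≥ 1` and all
`q ≥ 2`** (below `n + 1` and `r + 2` stand for `n` and `q`). The closed connected manifold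
`M = {|y| = 1} / ℤ^(n+2) × ℤ^(r+1) = S^(n+1) × T^(n+1+q)`, of dimension `2 (n + 1) + q`, carries a
`q`-contact structure with a contact action all of whose isotropy groups are cyclic (so that every
leaf is homeomorphic to `ℝ^q` or to `ℝ^(q-1) × S^1`), and trivial outside countably many of the
tori `{y} × T^(n+1+q)`; no leaf is compact, and no leaf is homeomorphic to the torus `T^q`. -/
theorem result (n r : ℕ) :
    CarriesNoToralLeaf (sph n r) (tgroup n r) (n + 1) (r + 2) (fun z => z.1) := by
  refine ⟨lam n r, bR n r, isQContact n r, action n r, fun x hx => ?_,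
    cset n r, countable_cset n r, fun x hx hC => isotropy_eq_bot x hx hC⟩
  have hcy := cyclic x hx
  have hnc : ¬ CompactSpace ((action n r).Leaf x) := not_compact _ hcy
  refine ⟨hcy, hnc, ⟨fun e => ?_⟩⟩
  have : Fact ((0 : ℝ) < 1) := ⟨one_pos⟩
  exact hnc e.symm.compactSpace

end Pool.Agent.Results.MP_666db5_gt.AllDimensions
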